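import Pool.Agent.Helper98.DISC.GoalsD

/-!
# Project DISC (MP_105b7b_pr), packet FUB
-/

open MeasureTheory Set Filter Topology
open scoped ENNReal

noncomputable section

namespace Pool.Agent.Helper73.DISC

open Pool.Agent.Helper98.DISC

/-- `ι` is the disjoint union of `{j}`, the elements `< j` and the elements `> j` -/
def sig {ι : Type} [LinearOrder ι] (j : ι) : (Unit ⊕ ({i // i < j} ⊕ {i // j < i})) ≃ ι where
  toFun x := match x with
    | Sum.inl _ => j
    | Sum.inr (Sum.inl i) => i
    | Sum.inr (Sum.inr i) => i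
  invFun i := if h : i < j then Sum.inr (Sum.inl ⟨i, h⟩)
    else if h' : j < i then Sum.inr (Sum.inr ⟨i, h'⟩) else Sum.inl ()
  left_inv x := by
    rcases x with _ | i | i
    · simp
    · simp [i.2]
    · simp [i.2, not_lt.2 i.2.le]
  right_inv i := by
    rcases lt_trichotomy i j with h | h | h
    · simp [h]
    · subst h; simp
    · simp [h, not_lt.2 h.le]

/-- the map `z ↦ (z j, (z_i)_(i<j), (z_i)_(i>j))` preserves the volume -/
theorem mpF {ι : Type} [Fintype ι] [LinearOrder ι] (j : ι) :
    MeasurePreserving (fun z : ι → ℂ => (z j, ((fun i : {i // i < j} => z i),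
      (fun i : {i // j < i} => z i)))) volume volume := by
  have h1 := (volume_measurePreserving_piCongrLeft (fun _ : ι => ℂ) (sig j)).symm
  have h2 := volume_measurePreserving_sumPiEquivProdPi
    (fun _ : Unit ⊕ ({i // i < j} ⊕ {i // j < i}) => ℂ)
  have h3 := volume_measurePreserving_sumPiEquivProdPi
    (fun _ : {i // i < j} ⊕ {i // j < i} => ℂ)
  have h4 := volume_preserving_funUnique Unit ℂ
  have h5 := (h4.prod h3).comp (h2.comp h1)
  exact h5

theorem fub : S_FUB := by
  intro ι _ _ j G L Q hG hL hQ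
  set S : Set (ℂ × (({i // i < j} → ℂ) × ({i // j < i} → ℂ))) :=
    {p | p.1 ∈ G ∧ (p.1, p.2.1) ∈ L ∧ (p.1, p.2.2) ∈ Q} with hS
  have hSm : MeasurableSet S := by
    refine MeasurableSet.inter (measurable_fst hG) (MeasurableSet.inter ?_ ?_)
    · exact (measurable_fst.prodMk (measurable_fst.comp measurable_snd)) hL
    · exact (measurable_fst.prodMk (measurable_snd.comp measurable_snd)) hQ
  have h1 : volume {z : ι → ℂ | z j ∈ G ∧ (z j, fun i : {i // i < j} => z i) ∈ L ∧
      (z j, fun i : {i // j < i} => z i) ∈ Q} = volume S :=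
    (mpF j).measure_preimage hSm.nullMeasurableSet
  rw [h1, Measure.volume_eq_prod, Measure.prod_apply hSm, ← lintegral_indicator hG]
  refine lintegral_congr fun w => ?_
  by_cases hw : w ∈ G
  · rw [indicator_of_mem hw]
    have h2 : Prod.mk w ⁻¹' S = {u | (w, u) ∈ L} ×ˢ {u | (w, u) ∈ Q} := by
      ext u
      simp [hS, hw]
    rw [h2, Measure.volume_eq_prod, Measure.prod_prod]
  · rw [indicator_of_notMem hw]
    have h2 : Prod.mk w ⁻¹' S = ∅ := by
      ext u
      simp [hS, hw]
    rw [h2, measure_empty]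

end Pool.Agent.Helper73.DISC
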